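import Pool.Agent.E8helper81.GZ.Stm
import Pool.Agent.E8helper63.SZ.Pos

/-! # Project GZ: GZ-M -/

set_option autoImplicit false

namespace Pool.Agent.E8helper63.GZ

open Finset Pool.Agent.E8helper22.SZ Pool.Agent.E8helper81.GZ Pool.Agent.E8helper63.SZ

theorem t_M : S_M := by
  intro q χ hq h p n hp hcp hn
  obtain ⟨a, n1, hpn1, rfl⟩ := Nat.exists_eq_pow_mul_and_not_dvd hn.ne' p hp.ne_one
  have hn1 : 0 < n1 := by
    rcases Nat.eq_zero_or_pos n1 with h0 | h0
    · exfalso; apply hpn1; rw [h0]; exact dvd_zero _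
    · exact h0
  -- the value at `p` is one
  have hχ : χ (p : ZMod q) = 1 := by
    unfold cv at hcp
    rcases h.quad (p : ZMod q) with h3 | h3 | h3
    · rw [h3] at hcp; simp at hcp
    · exact h3
    · rw [h3] at hcp; norm_num at hcp
  have hpp : ∀ k : ℕ, tau χ (p ^ k) = k + 1 := by
    intro k
    unfold tau
    rw [Nat.sum_divisors_prime_pow hp]
    have h1 : ∀ x : ℕ, cv χ (p ^ x) = 1 := by
      intro x
      unfold cv
      rw [Nat.cast_pow, map_pow, hχ, one_pow, Complex.one_re]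
    rw [Finset.sum_congr rfl fun x _ => h1 x]
    simp
  -- multiplicativity
  have hmul : ∀ k : ℕ, tau χ (p ^ k * n1) = (k + 1) * tau χ n1 := by
    intro k
    have hco : Nat.Coprime (p ^ k) n1 := Nat.Coprime.pow_left k ((Nat.Prime.coprime_iff_not_dvd hp).2 hpn1)
    have h2 := (DirichletCharacter.isMultiplicative_zetaMul χ).2 hco
    have hr : ∀ m, (DirichletCharacter.zetaMul χ m).im = 0 := by
      intro m
      exact (Complex.le_def.mp (DirichletCharacter.zetaMul_nonneg (sq_one h) m)).2.symm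
    rw [tau_eq, h2, Complex.mul_re, hr, hr, mul_zero, sub_zero, ← tau_eq, ← tau_eq, hpp]
  have h0 : 0 ≤ tau χ n1 := (t_POS q χ hq h n1 hn1).1
  have e1 : p * (p ^ a * n1) = p ^ (a + 1) * n1 := by ring
  rw [e1, hmul, hmul]
  push_cast
  nlinarith

end Pool.Agent.E8helper63.GZ
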