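import Pool.Agent.E8helper81.GZ.Stm

/-! # Project GZ: GZ-Z -/

set_option autoImplicit false

namespace Pool.Agent.E8helper63.GZ

open Finset Pool.Agent.E8helper22.SZ Pool.Agent.E8helper81.GZ Filter Topology

theorem t_Z : S_Z := by
  have h := tendsto_riemannZeta_sub_one_div
  have h1 : Tendsto (fun s : ℂ => (riemannZeta s - 1 / (s - 1)).re) (𝓝[≠] 1)
      (𝓝 ((Real.eulerMascheroniConstant : ℂ)).re) :=
    (Complex.continuous_re.tendsto _).comp h
  have h2 : ∀ᶠ s in 𝓝[≠] (1 : ℂ), (riemannZeta s - 1 / (s - 1)).re < 1 := by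
    refine h1.eventually_lt_const ?_
    rw [Complex.ofReal_re]
    have := Real.eulerMascheroniConstant_lt_two_thirds
    linarith
  rw [eventually_nhdsWithin_iff, Metric.eventually_nhds_iff] at h2
  obtain ⟨ε, hε, h3⟩ := h2
  refine ⟨min (ε / 2) (1 / 8), by positivity, min_le_right _ _, fun β hβ hβ1 => ?_⟩
  have hε2 : 1 - β ≤ ε / 2 := by linarith [min_le_left (ε / 2) (1 / 8 : ℝ)]
  have h8 : 1 - β ≤ 1 / 8 := by linarith [min_le_right (ε / 2) (1 / 8 : ℝ)]
  have hd : dist (β : ℂ) 1 < ε := by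
    rw [Complex.dist_eq]
    have e1 : (β : ℂ) - 1 = ((β - 1 : ℝ) : ℂ) := by push_cast; ring
    rw [e1, Complex.norm_real, Real.norm_eq_abs, abs_sub_comm, abs_of_pos (by linarith)]
    linarith
  have hne : (β : ℂ) ∈ ({1}ᶜ : Set ℂ) := by
    rw [Set.mem_compl_singleton_iff]
    exact_mod_cast hβ1.ne
  have h4 := h3 hd hne
  have e2 : (1 / ((β : ℂ) - 1)) = (((1 / (β - 1) : ℝ)) : ℂ) := by push_cast; ring
  rw [Complex.sub_re, e2, Complex.ofReal_re] at h4
  have hpos : 0 < 1 - β := by linarith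
  have e3 : 1 / (β - 1) = -(1 / (1 - β)) := by
    rw [← neg_sub 1 β, one_div_neg_eq_neg_one_div]
  rw [e3] at h4
  have e4 : 1 / (2 * (1 - β)) = (1 / (1 - β)) / 2 := by
    field_simp
  have e5 : 2 ≤ 1 / (1 - β) := by
    rw [le_div_iff₀ hpos]
    linarith
  rw [e4]
  linarith

end Pool.Agent.E8helper63.GZ
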